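import Pool.Agent.H66.IQ.TE
import Pool.Agent.H17.EI.BST

/-!
# (PST) the stage of a protocol whose verifier asks questions about machines (MP_0f8dca_lc)
-/

set_option autoImplicit false

namespace Pool.Agent.H31.IQ

open Finset Pool.Agent.H6.NB Pool.Agent.H70.OQ Pool.Agent.H70.EH Pool.Agent.H70.EI Pool.Agent.H78.XQ
open Pool.Agent.H66.IP (Local ins sp dm Good Ext Fool)
open Pool.Agent.H66.IQ

/-- PST. -/
theorem pf_PST (hLOW : Pool.Agent.H66.IP.T_LOW) (hSTJ : Pool.Agent.H66.IP.T_STJ) (hPFL : T_PFL)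
    (hPGP : T_PGP) (hPLO : T_PLO) (hSPF : Pool.Agent.H66.IP.T_SPF)
    (hPLT : Pool.Agent.H66.IP.T_PLT) : T_PST := by
  intro V k G hG N M O hgood
  obtain ⟨n₀, hn₀⟩ := hG
  obtain ⟨n₁, hn₁⟩ := hPFL V k
  obtain ⟨n₂, hn₂⟩ := hPGP k
  obtain ⟨n, hn⟩ : ∃ n, n = n₀ + n₁ + n₂ + N + M + 20 := ⟨_, rfl⟩
  have hcube : n + 1 ≤ (n + 1) ^ 3 := Nat.le_self_pow (by norm_num) _
  obtain ⟨q, hq⟩ : ∃ q, q = 16 * (n + 1) ^ 3 := ⟨_, rfl⟩
  have hMq : M < q := by omega
  obtain ⟨O₁, hO₁⟩ := hLOW V M q O hMq hgood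
  obtain ⟨hval, m, hm⟩ := hPLO k (G n)
  obtain ⟨M₂, hM₂⟩ : ∃ M₂, M₂ = q + 1 + m + 2 ^ (k + 1) * n + 1 := ⟨_, rfl⟩
  have hne : Nonempty (Hid (Fin n → Bool) (Ys n) k) := Pool.Agent.H17.EI.hid_ne n k
  have hW : (G n).Within (2 ^ (n / 4)) := hn₀ n (by omega)
  obtain ⟨O', z, b, hg, hout, htab, hbt, hbf⟩ := hSTJ V n k M₂ O₁ (fun A => (G n).val A)
    (Hid (Fin n → Bool) (Ys n) k × (Fin n → Bool))
    (fun z => tabT k z.1) (fun z => tabU k z.1 z.2) (by omega) (by rw [← hq]; omega)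
    (fun p hp => hO₁.good p (by rw [← hq] at hp; exact hp))
    (fun A A' h => hm A A' fun w hw => h w (by omega)) hval
    (hn₁ n (by omega) (G n) hW) (fun A hA => hn₂ n (by omega) (G n) hW A hA)
  rw [← hq] at hout
  refine ⟨M₂, O', ⟨by omega, ?_, hg⟩, ?_⟩
  · intro w hw
    rw [← hO₁.eq w hw]
    refine hout w ?_ ?_
    · intro x hx
      rcases hw with hw | ⟨p, hp, hpw⟩
      · have h1 := (hPLT.2.1 k n x).1
        rw [hx, List.length_cons] at hw
        omega
      · obtain ⟨-, w', hw'⟩ := (hSPF V).2.2.2.1 p w hpw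
        rw [hx] at hw'
        simp at hw'
    · intro p' hp' hpw'
      rcases hw with hw | ⟨p, hp, hpw⟩
      · have h1 := ((hSPF V).2.2.2.1 p' w hpw').1
        omega
      · have h1 := (hSPF V).2.2.2.2.1 p p' w hpw hpw'
        rw [h1] at hp
        omega
  · intro O'' hO''
    refine ⟨n, by omega, fun hpr => ?_⟩
    have h1 : (G n).val O'' = (G n).val O' := hm _ _ fun w hw => hO'' w (by omega)
    have h2 : List.replicate n false ∈ plang k O'' ↔ List.replicate n false ∈ plang k O' :=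
      hPLT.2.2.2 k n O'' O' fun w hw => hO'' w (by omega)
    cases b with
    | true =>
      have h3 := hbt rfl
      have h4 : List.replicate n false ∉ plang k O' :=
        (hPLT.1 k n O' z.1).1 fun p => by rw [htab p, if_pos rfl]
      have h5 := hpr.1 fun e => h4 (h2.1 e)
      rw [h1] at h5
      linarith
    | false =>
      have h3 := hbf rfl
      have h4 : List.replicate n false ∈ plang k O' :=
        (hPLT.1 k n O' z.1).2 z.2 fun p => by rw [htab p, if_neg (by simp)]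
      have h5 := hpr.2 (not_not.mpr (h2.2 h4))
      rw [h1] at h5
      linarith

end Pool.Agent.H31.IQ
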